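import Pool.Agent.V8H63.GD.Crit

/-!
# Polylogarithmic relations in one variable are detected by divisors

For an arbitrary field `K` (for instance an algebraically closed one, of any characteristic), all
`n ≥ 2` and all `α = ∑ n_i {f_i}`, `f_i ∈ K(x)`, such that all zeros and poles of the `f_i` and of the
`1 - f_i` are `K`-rational: the class of `α` in `B_n(K(x)) ⊗ ℚ` comes from `B_n(K) ⊗ ℚ` if and only
if `∑ n_i div(1 - f_i) ∧ div(f_i) ⊗ div(f_i)^(n-2)` vanishes in `Λ²D ⊗ D^(n-2) ⊗ ℚ`, `D` the group of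
divisors on the affine line. The constants `K^*` play no role.

The groups `B_n` are those of `Pool/Agent/H39R2/GonP/Defs.lean`.
-/

set_option autoImplicit false

namespace Pool.Agent.Results.MP_9c6ec7_al.DivisorCriterion

open Polynomial

section defs

variable {K : Type} [Field K]

/-- the zeros of a polynomial on the affine line `K`, with multiplicities (`0` for `p = 0`) -/
noncomputable def zeros (p : K[X]) : K →₀ ℤ := (p.roots.map (fun a => Finsupp.single a (1 : ℤ))).sum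

/-- the divisor `∑_{a ∈ K} ord_a(f) [a]` of `f ∈ K(x)` on `K` (`0` for `f = 0`) -/
noncomputable def div (f : RatFunc K) : K →₀ ℤ := zeros f.num - zeros f.denom

/-- all zeros and poles of `f` and of `1 - f` lie in `K ∪ {∞}` -/
def RationalPoints (f : RatFunc K) : Prop :=
  f.num.Splits ∧ f.denom.Splits ∧ (f.denom - f.num).Splits

/-- `∑ n_i {y_i} ∈ ℤ[P^1_K]` as an element of `ℤ[P^1_{K(x)}]` -/
noncomputable def const (v : GonP.ZP K) : GonP.ZP (RatFunc K) :=
  v.mapDomain (Option.map (RatFunc.C : K →+* RatFunc K))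

/-- `{f} ↦ Ψ(div(1 - f), div f; div f, ..., div f)` and `{∞} ↦ 0` -/
noncomputable def form {m : ℕ} (Ψ : (K →₀ ℤ) →ₗ[ℤ] (K →₀ ℤ) →ₗ[ℤ]
    MultilinearMap ℤ (fun _ : Fin m => (K →₀ ℤ)) ℚ) : GonP.P1 (RatFunc K) → ℚ
  | none => 0
  | some f => Ψ (div (1 - f)) (div f) (fun _ => div f)

/-- `∑ n_i div(1 - f_i) ∧ div(f_i) ⊗ div(f_i) ⊗ ... ⊗ div(f_i) = 0` in `Λ²D ⊗ D^(⊗ m) ⊗ ℚ`: all
rational multilinear forms in `m + 2` divisors which are alternating in the first two variables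
vanish on it. -/
def SymbolVanishes (m : ℕ) (α : GonP.ZP (RatFunc K)) : Prop :=
  ∀ Ψ : (K →₀ ℤ) →ₗ[ℤ] (K →₀ ℤ) →ₗ[ℤ] MultilinearMap ℤ (fun _ : Fin m => (K →₀ ℤ)) ℚ,
    (∀ a, Ψ a a = 0) → GonP.lift (form Ψ) α = 0

end defs

theorem result :
    (∀ (K : Type) [Field K] (m : ℕ) (α : GonP.ZP (RatFunc K)),
      (∀ f : RatFunc K, some f ∈ α.support → RationalPoints f) →
      -- `n = m + 2`: the divisor symbol vanishes iff `α` is constant in `B_n(K(x))`, up to torsion
      (SymbolVanishes m α ↔ ∃ (N : ℕ) (v : GonP.ZP K), 0 < N ∧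
        N • GonP.toQuo (GonP.R (m + 2) (RatFunc K)) α =
          GonP.toQuo (GonP.R (m + 2) (RatFunc K)) (const v)) ∧
      -- iff `α(x) = α(0)` in `B_n(K(x))`, up to torsion
      (SymbolVanishes m α ↔ ∃ N : ℕ, 0 < N ∧ N • GonP.toQuo (GonP.R (m + 2) (RatFunc K)) α =
          N • GonP.toQuo (GonP.R (m + 2) (RatFunc K)) (const (GonP.specZ 0 α))) ∧
      -- and then `α(a) = α(0)` in `B_n(K)`, up to torsion, for all `a ∈ K`
      (SymbolVanishes m α → ∀ a : K, ∃ N : ℕ, 0 < N ∧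
        N • GonP.toQuo (GonP.R (m + 2) K) (GonP.specZ a α) =
          N • GonP.toQuo (GonP.R (m + 2) K) (GonP.specZ 0 α))) ∧
    -- over an algebraically closed field there is no restriction on the functions
    (∀ (K : Type) [Field K] [IsAlgClosed K] (f : RatFunc K), RationalPoints f) := by
  refine ⟨?_, fun K _ _ f => Pool.Agent.V8H63.GD.spl_of_isAlgClosed f⟩
  intro K _ m α hα
  have hspl : Pool.Agent.V8H63.GD.SplA α := fun f hf => hα f hf
  have hsym : SymbolVanishes m α ↔ Pool.Agent.V8H63.GD.SymZero m α := by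
    refine forall₂_congr fun Ψ _ => ?_
    have h1 : GonP.lift (form Ψ) α =
        α.sum (fun x n => n • Pool.Agent.V8H63.GD.dfun Ψ x) := by
      unfold GonP.lift
      apply Finsupp.sum_congr
      intro x _
      cases x <;> rfl
    rw [h1]
  -- membership in the two versions of the groups
  have hmem : ∀ (F : Type) [Field F] (β γ : GonP.ZP F),
      GonP.toQuo (GonP.R (m + 2) F) β = GonP.toQuo (GonP.R (m + 2) F) γ ↔
        β - γ ∈ H39Gon.R (m + 2) F := by
    intro F _ β γ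
    have h1 : GonP.toQuo (GonP.R (m + 2) F) β = GonP.toQuo (GonP.R (m + 2) F) γ ↔
        -β + γ ∈ GonP.R (m + 2) F := QuotientAddGroup.eq
    rw [h1, GonP.R_eq, Submodule.mem_toAddSubgroup, ← Submodule.neg_mem_iff]
    have h2 : -(-β + γ) = β - γ := by abel
    rw [h2]
  have hsm : ∀ (F : Type) [Field F] (N : ℕ) (β : GonP.ZP F),
      N • GonP.toQuo (GonP.R (m + 2) F) β = GonP.toQuo (GonP.R (m + 2) F) (N • β) :=
    fun F _ N β => rfl
  have hc : ∀ v : GonP.ZP K, const v = H39Gon.rmM (RatFunc.C : K →+* RatFunc K) v := by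
    intro v
    unfold const H39Gon.rmM
    rw [Finsupp.lmapDomain_apply]
  have hs : ∀ a : K, GonP.specZ a α = H39Gon.specZ K a α := fun a => GonP.specZ_eq a α
  have hconst : SymbolVanishes m α → ∃ N : ℕ, 0 < N ∧
      N • GonP.toQuo (GonP.R (m + 2) (RatFunc K)) α =
        N • GonP.toQuo (GonP.R (m + 2) (RatFunc K)) (const (GonP.specZ 0 α)) := by
    intro h
    obtain ⟨N, hN, h1⟩ := Pool.Agent.V8H63.GD.crit_const m α hspl (hsym.1 h)
    refine ⟨N, hN, ?_⟩
    rw [hsm, hsm, hmem, hs, hc, ← smul_sub]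
    exact h1
  have hback : (∃ (N : ℕ) (v : GonP.ZP K), 0 < N ∧
        N • GonP.toQuo (GonP.R (m + 2) (RatFunc K)) α =
          GonP.toQuo (GonP.R (m + 2) (RatFunc K)) (const v)) → SymbolVanishes m α := by
    rintro ⟨N, v, hN, h⟩
    rw [hsm, hmem, hc] at h
    exact hsym.2 (Pool.Agent.V8H63.GD.symZero_of m α v N hN h)
  refine ⟨⟨fun h => ?_, hback⟩, ⟨hconst, fun h => hback ?_⟩, fun h a => ?_⟩
  · obtain ⟨N, hN, h1⟩ := hconst h
    refine ⟨N, N • GonP.specZ 0 α, hN, ?_⟩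
    rw [h1, hsm]
    congr 1
    rw [hc, hc, map_nsmul]
  · obtain ⟨N, hN, h1⟩ := h
    refine ⟨N, N • GonP.specZ 0 α, hN, ?_⟩
    rw [h1, hsm]
    congr 1
    rw [hc, hc, map_nsmul]
  · obtain ⟨N, hN, h1⟩ := Pool.Agent.V8H63.GD.crit_values m α hspl (hsym.1 h) a
    refine ⟨N, hN, ?_⟩
    rw [hsm, hsm, hmem, hs, hs, ← smul_sub, ← Submodule.neg_mem_iff, ← smul_neg, neg_sub]
    exact h1

end Pool.Agent.Results.MP_9c6ec7_al.DivisorCriterion
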