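import Pool.Agent.V8H63.NT.Out5

/-!
# Number fields: finiteness in the degree `n - 1` of Goncharov's complexes

Let `F` be a number field. Then for every `n ≥ 3` the space `H^(n-1)(Γ(F,n) ⊗ ℚ)` modulo the
products of `H^1(Γ(F,2) ⊗ ℚ)` with `Λ^(n-2) F^*` is finite-dimensional; for `n ≥ 4` products with
`y_1 ∧ ... ∧ y_(n-2)`, `y_k` in a finite set depending only on `F`, suffice. So
`H^(n-1)(Γ(F,n) ⊗ ℚ)` is finite-dimensional for all `n ≥ 3` if `H^1(Γ(F,2) ⊗ ℚ)` is (a theorem of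
Suslin and Borel says that it is; it is not formalised). Without any hypothesis
`H^(n-1)(Γ(F,n) ⊗ ℚ) = 0` for all large `n`.

The definitions are in `Pool/Agent/H39R2/GonP/Defs.lean` (the groups `B_n`, `TQ F m j =
(B_m(F) ⊗ Λ^j F^*) ⊗ ℚ`, `LQ F j = Λ^j F^* ⊗ ℚ`, the differentials `IsE`),
`Pool/Agent/V8H63/W3/Fin.lean` (`ImageB3`, `ProdH1`), `Pool/Agent/V8H63/NF/CohDefs.lean`
(`Vanish`, `FinMod`) and `Pool/Agent/V8H63/NT/Defs.lean` (`ProdX`).
-/

set_option autoImplicit false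

namespace Pool.Agent.Results.MP_9c6ec7_al.NumberFieldsFiniteness

open GonP Pool.Agent.V8H63.W3 Pool.Agent.V8H63.NF

theorem result (F : Type) [Field F] [NumberField F] :
    -- the last differentials `e j : (B_2(F) ⊗ Λ^j F^*)_ℚ → (Λ^(j+2) F^*)_ℚ` exist and are unique
    ∃ e : ∀ j, TQ F 2 j → LQ F (j + 2), (∀ j, IsE j (e j)) ∧
      (∀ e' : ∀ j, TQ F 2 j → LQ F (j + 2), (∀ j, IsE j (e' j)) → e' = e) ∧
      -- (1) for all `n = j + 3 ≥ 3` the space `H^(n-1)(Γ(F,n) ⊗ ℚ)` modulo products is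
      -- finite-dimensional
      (∀ j : ℕ, FinMod e j (ImageB3 F j ∪ ProdH1 F (j + 1))) ∧
      -- for `n = j + 4 ≥ 4` it suffices to divide by products with entries in a finite set
      (∃ X : Finset (UV F), ∀ j : ℕ,
        FinMod e (j + 1) (ImageB3 F (j + 1) ∪ ProdX F X (j + 2))) ∧
      -- (2) if `H^1(Γ(F,2) ⊗ ℚ)`, the kernel of `e 0`, is finite-dimensional, so is
      -- `H^(n-1)(Γ(F,n) ⊗ ℚ)` for all `n = j + 3 ≥ 3`
      ((∃ S : Set (TQ F 2 0), S.Finite ∧ ∀ u, e 0 u = 0 → u ∈ Submodule.span ℚ S) →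
        ∀ j : ℕ, FinMod e j (ImageB3 F j)) ∧
      -- (3) `H^(n-1)(Γ(F,n) ⊗ ℚ) = 0` for all large `n = j + 3`
      ∃ j₀ : ℕ, ∀ j, j₀ ≤ j → Vanish e j :=
  ⟨eG F, eG_isE, fun e' h => isE_unique (eG F) e' eG_isE h, outU, outUX, outUF', outNF⟩

end Pool.Agent.Results.MP_9c6ec7_al.NumberFieldsFiniteness
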