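import Pool.Agent.V8H63.NF.Sy3
import Pool.Agent.V8H63.W3.InstZ
import Pool.Agent.V8H63.W3.InstPoly

/-!
# The degree `n - 1` of Goncharov's complexes of `ℚ` and of `k(x)`, `k` finite

For `F = ℚ`: `H^(n-1)(Γ(ℚ,n) ⊗ ℚ) = 0` for all `n ≥ 4`, without any hypothesis.
For `F = k(x)`, `k` a union of finite fields: `H^i(Γ(F,n) ⊗ ℚ) = 0` for all `n ≥ 3` and
`i = 1, n - 1, n`.

The definitions are in `Pool/Agent/H39R2/GonP/Defs.lean` (the groups `B_n`, `TQ F m j =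
(B_m(F) ⊗ Λ^j F^*) ⊗ ℚ`, `LQ F j = Λ^j F^* ⊗ ℚ`, the differentials `IsE`) and
`Pool/Agent/V8H63/W3/Fin.lean` (`ImageB3`). The input of weight three (the elements
`x ⊗ x ⊗ (1 - x)` span `Sym² F^* ⊗ F^*` rationally) is proved in `V8H63/W3`; for these fields it is
also in the starting files (`Y775.W3.span_rat`, `Y775.W3.span_poly`).
-/

set_option autoImplicit false

namespace Pool.Agent.Results.MP_9c6ec7_al.RationalsTopDegrees

open GonP Pool.Agent.V8H63.W3 Pool.Agent.V8H63.NF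

theorem result :
    -- the rational numbers: the last differentials
    -- `e j : (B_2(ℚ) ⊗ Λ^j ℚ^*)_ℚ → (Λ^(j+2) ℚ^*)_ℚ` exist and are unique
    (∃ e : ∀ j, TQ ℚ 2 j → LQ ℚ (j + 2), (∀ j, IsE j (e j)) ∧
      (∀ e' : ∀ j, TQ ℚ 2 j → LQ ℚ (j + 2), (∀ j, IsE j (e' j)) → e' = e) ∧
      -- `H^n(Γ(ℚ,n) ⊗ ℚ) = 0`, `n = j + 2`
      (∀ j, Function.Surjective (e j)) ∧
      -- `n = j + 4`: the kernel of `(B_2(ℚ) ⊗ Λ^(j+2) ℚ^*)_ℚ → (Λ^n ℚ^*)_ℚ` is generated by the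
      -- image of `(B_3(ℚ) ⊗ Λ^(j+1) ℚ^*)_ℚ`, so `H^(n-1)(Γ(ℚ,n) ⊗ ℚ) = 0` for all `n ≥ 4`
      ∀ (j : ℕ) (u : TQ ℚ 2 (j + 2)),
        e (j + 2) u = 0 ↔ u ∈ Submodule.span ℚ (ImageB3 ℚ (j + 1))) ∧
    -- `F = k(x)`, `k` a union of finite fields
    ∀ (k : Type) [Field k], (∀ x : k, ∃ K : Subfield k, Finite K ∧ x ∈ K) →
      -- the differentials of the complexes `Γ(F,n) ⊗ ℚ`, `n ≥ 2`, exist and are unique
      ∃ D : Differentials (RatFunc k), (∀ D' : Differentials (RatFunc k), D' = D) ∧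
        -- `H^1(Γ(F,n) ⊗ ℚ) = 0` for `n = m + 3` and for `n = 2`
        (∀ m, Function.Injective (D.d m 0)) ∧ Function.Injective (D.e 0) ∧
        -- `H^(n-1)(Γ(F,n) ⊗ ℚ) = 0` for `n = j + 3`
        (∀ j, Function.Exact (D.d 0 j) (D.e (j + 1))) ∧
        -- `H^n(Γ(F,n) ⊗ ℚ) = 0` for `n = j + 2`
        ∀ j, Function.Surjective (D.e j) := by
  constructor
  · have hu : ∀ u : ℤ, IsUnit u → ∃ N : ℕ, 0 < N ∧ u ^ N = 1 := by
      intro u hu
      refine ⟨2, by norm_num, ?_⟩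
      rcases Int.isUnit_iff.1 hu with rfl | rfl <;> norm_num
    have h0 : H39Gon.SpanDual ℚ 0 := spanDual0 (A := ℤ) levZ hu
    have h1 : H39Gon.SpanDual ℚ 1 := spanDual1 (A := ℤ) levZ hu
    refine ⟨eG ℚ, eG_isE, fun e' h => isE_unique (eG ℚ) e' eG_isE h, eG_surj h0, ?_⟩
    intro j u
    rw [eG_ker h1 (j + 1)]
    refine ⟨fun hu => ?_, fun hu => Submodule.span_mono Set.subset_union_left hu⟩
    have h2 : Submodule.span ℚ (ImageB3 ℚ (j + 1) ∪ ProdH1 ℚ (j + 2)) ≤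
        Submodule.span ℚ (ImageB3 ℚ (j + 1)) := by
      rw [Submodule.span_le]
      rintro v (hv | hv)
      · exact Submodule.subset_span hv
      · exact outP4 (eG_surj h0 0) j hv
    exact h2 hu
  · intro k _ hk
    have hu : ∀ u : Polynomial k, IsUnit u → ∃ N : ℕ, 0 < N ∧ u ^ N = 1 := by
      intro u hu
      obtain ⟨c, hc, rfl⟩ := Polynomial.isUnit_iff.1 hu
      obtain ⟨K, hK, hcK⟩ := hk c
      have h0 : (⟨c, hcK⟩ : K) ≠ 0 := fun e => hc.ne_zero (congrArg Subtype.val e)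
      obtain ⟨N, hN, h1⟩ := isOfFinOrder_iff_pow_eq_one.1
        (isOfFinOrder_of_finite (Units.mk0 (⟨c, hcK⟩ : K) h0))
      refine ⟨N, hN, ?_⟩
      have h2 := congrArg (fun u : Kˣ => ((u : K) : k)) h1
      have h3 : c ^ N = 1 := by simpa using h2
      rw [← Polynomial.C_pow, h3, Polynomial.C_1]
    have h0 : H39Gon.SpanDual (RatFunc k) 0 := spanDual0 (A := Polynomial k) (levPoly hk) hu
    have h1 : H39Gon.SpanDual (RatFunc k) 1 := spanDual1 (A := Polynomial k) (levPoly hk) hu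
    exact main_D (Pool.Agent.TH358.GP.evS_ratFunc k (Pool.Agent.TH358.GP.evS_base hk)) h0 h1

end Pool.Agent.Results.MP_9c6ec7_al.RationalsTopDegrees
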