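import Pool.Agent.V8H63.NF.Out2
import Pool.Agent.V8H63.NF.CohDefs

/-!
# The degree `n - 1` of Goncharov's complexes for fields with small `K_2(F) ⊗ ℚ`

Let `F` be a field and `X ⊆ F^*` a finite set such that `K_2(F) ⊗ ℚ = H^2(Γ(F,2) ⊗ ℚ)`, the
cokernel of `e 0 : B_2(F)_ℚ → (Λ² F^*)_ℚ`, is generated by the symbols `{x, y}`, `x ∈ X`,
`y ∈ F^*`. Then `H^(n-1)(Γ(F,n) ⊗ ℚ) = 0` for all `n ≥ |X| + 5`. If `K_2(F) ⊗ ℚ = 0` (`X = ∅`),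
there are results for `n = 4` as well. The basis is the exchange identity
`{x}_2 ⊗ (1-y) ∧ y = {y}_2 ⊗ (1-x) ∧ x` modulo the image of `B_3(F) ⊗ F^*`, which holds for all
fields.

The definitions are in `Pool/Agent/H39R2/GonP/Defs.lean` (the groups `B_n`, `TQ F m j =
(B_m(F) ⊗ Λ^j F^*) ⊗ ℚ`, `LQ F j = Λ^j F^* ⊗ ℚ`, the differentials `IsE`) and
`Pool/Agent/V8H63/W3/Fin.lean` (`ImageB3`, `ProdH1`) and `Pool/Agent/V8H63/NF/CohDefs.lean`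
(`Vanish`, `SymGen`).
-/

set_option autoImplicit false

namespace Pool.Agent.Results.MP_9c6ec7_al.SmallK2Fields

open GonP Pool.Agent.V8H63.W3 Pool.Agent.V8H63.NF

theorem result (F : Type) [Field F] :
    -- the last differentials `e j : (B_2(F) ⊗ Λ^j F^*)_ℚ → (Λ^(j+2) F^*)_ℚ` exist and are unique
    ∃ e : ∀ j, TQ F 2 j → LQ F (j + 2), (∀ j, IsE j (e j)) ∧
      (∀ e' : ∀ j, TQ F 2 j → LQ F (j + 2), (∀ j, IsE j (e' j)) → e' = e) ∧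
      -- (1) the exchange identity, in `(B_2(F) ⊗ Λ^(j+2) F^*)_ℚ` modulo the image of
      -- `(B_3(F) ⊗ Λ^(j+1) F^*)_ℚ`
      (∀ (x y : F), x ≠ 0 → x ≠ 1 → y ≠ 0 → y ≠ 1 → ∀ (j : ℕ) (w : Fin j → UV F),
        tq 2 (j + 2) (some x) (Fin.cons (cl (1 - y)) (Fin.cons (cl y) w)) -
          tq 2 (j + 2) (some y) (Fin.cons (cl (1 - x)) (Fin.cons (cl x) w)) ∈
            Submodule.span ℚ (ImageB3 F (j + 1))) ∧
      -- (2) if `K_2(F) ⊗ ℚ` is generated by the symbols `{x, y}`, `x ∈ X`, `y ∈ F^*`, then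
      -- `H^(n-1)(Γ(F,n) ⊗ ℚ) = 0` for `n = j + 5 ≥ |X| + 5`
      (∀ X : Finset (UV F), SymGen e X → ∀ j : ℕ, X.card ≤ j → Vanish e (j + 2)) ∧
      -- (3) if `K_2(F) ⊗ ℚ = 0` then
      (Function.Surjective (e 0) →
        -- for `n = j + 4` the products of `ker δ_2 ⊆ B_2(F)` with `Λ^(j+2) F^*` lie in the image of
        -- `(B_3(F) ⊗ Λ^(j+1) F^*)_ℚ`
        (∀ j : ℕ, ProdH1 F (j + 2) ⊆ Submodule.span ℚ (ImageB3 F (j + 1))) ∧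
        -- if `H^2(Γ(F,3) ⊗ ℚ)` is generated by products then `H^3(Γ(F,4) ⊗ ℚ) = 0`
        ((∀ u : TQ F 2 1, e 1 u = 0 → u ∈ Submodule.span ℚ (ImageB3 F 0 ∪ ProdH1 F 1)) →
          Vanish e 1)) :=
  ⟨eG F, eG_isE, fun e' h => isE_unique (eG F) e' eG_isE h,
    fun x y hx0 hx1 hy0 hy1 j w => outEx x y hx0 hx1 hy0 hy1 j w,
    fun _ hX j hj u => outVX hX j hj u,
    fun hs => ⟨outP4 hs, outV4 hs⟩⟩

end Pool.Agent.Results.MP_9c6ec7_al.SmallK2Fields
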